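import Pool.Agent.H6.Abund.Farkas

/-! # Fractional Nash-Williams: Farkas' lemma for triangles -/

open Finset

namespace H56NW

open Pool.Agent.H6.Abund.FarkasAux

variable {V : Type} [Fintype V] [DecidableEq V]

/-- the indicator of the ordered pairs inside the triple `(a, b, c)` -/
def tv (t : V × V × V) (e : V × V) : ℚ :=
  (if e = (t.1, t.2.1) then 1 else 0) + (if e = (t.2.1, t.1) then 1 else 0) +
  (if e = (t.2.1, t.2.2) then 1 else 0) + (if e = (t.2.2, t.2.1) then 1 else 0) +
  (if e = (t.1, t.2.2) then 1 else 0) + (if e = (t.2.2, t.1) then 1 else 0)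

/-- the indicator of triangles -/
def tg (g : V → V → ℚ) (t : V × V × V) : ℚ := g t.1 t.2.1 * g t.2.1 t.2.2 * g t.1 t.2.2

theorem exists_weights (g : V → V → ℚ) (g01 : ∀ x y, g x y = 0 ∨ g x y = 1)
    (gs : ∀ x y, g x y = g y x)
    (tot : ∀ z : V → V → ℚ, (∀ x y, z x y = z y x) →
      (∀ x y c, g x y = 1 → g y c = 1 → g x c = 1 → 0 ≤ z x y + z y c + z x c) →
      0 ≤ ∑ x, ∑ y, g x y * z x y) :
    ∃ w : V × V × V → ℚ, (∀ t, 0 ≤ w t) ∧ (∀ t, w t ≠ 0 → tg g t = 1) ∧
      ∀ e : V × V, ∑ t, w t * tv t e = g e.1 e.2 := by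
  classical
  rcases farkas_fintype (K := ℚ) (fun t : V × V × V => (tg g t) • (tv t : V × V → ℚ))
    (fun e : V × V => g e.1 e.2) with ⟨α, hα, hsum⟩ | ⟨f, hf, hfχ⟩
  · have htg : ∀ t, tg g t = 0 ∨ tg g t = 1 := by
      intro t
      unfold tg
      rcases g01 t.1 t.2.1 with h1 | h1 <;> rcases g01 t.2.1 t.2.2 with h2 | h2 <;>
        rcases g01 t.1 t.2.2 with h3 | h3 <;> simp [h1, h2, h3]
    refine ⟨fun t => α t * tg g t, ?_, ?_, ?_⟩
    · intro t
      rcases htg t with h | h
      · simp [h]
      · simpa [h] using hα t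
    · intro t ht
      rcases htg t with h | h
      · exact absurd (by simp [h]) ht
      · exact h
    · intro e
      have h := congrFun hsum e
      simp only [Finset.sum_apply, Pi.smul_apply, smul_eq_mul] at h
      rw [← h]
      refine Finset.sum_congr rfl fun t _ => ?_
      ring
  · exfalso
    have hdec : ∀ F : V × V → ℚ, f F = ∑ e, F e * f (Pi.single e 1) := by
      intro F
      have h1 : F = ∑ e, F e • (Pi.single e (1 : ℚ) : V × V → ℚ) := by
        funext e'
        simp only [Finset.sum_apply, Pi.smul_apply, smul_eq_mul, Pi.single_apply, mul_ite, mul_one,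
          mul_zero, Finset.sum_ite_eq, Finset.mem_univ, if_true]
      conv_lhs => rw [h1]
      rw [map_sum]
      refine Finset.sum_congr rfl fun e _ => ?_
      rw [map_smul, smul_eq_mul]
    let z : V → V → ℚ := fun x y => f (Pi.single (x, y) 1) + f (Pi.single (y, x) 1)
    have hz := tot z (fun x y => add_comm _ _) ?_
    · have h1 : ∑ x, ∑ y, g x y * z x y = 2 * f (fun e : V × V => g e.1 e.2) := by
        rw [hdec, Fintype.sum_prod_type]
        simp only [z, mul_add, Finset.sum_add_distrib]
        have h2 : ∑ x, ∑ y, g x y * f (Pi.single (y, x) 1) =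
            ∑ x, ∑ y, g x y * f (Pi.single (x, y) 1) := by
          rw [Finset.sum_comm]
          refine Finset.sum_congr rfl fun x _ => Finset.sum_congr rfl fun y _ => ?_
          rw [gs y x]
        rw [h2]; ring
      linarith
    · intro a b c hab hbc hac
      have h1 := hf (a, b, c)
      rw [map_smul, hdec] at h1
      have h2 : tg g (a, b, c) = 1 := by simp [tg, hab, hbc, hac]
      rw [h2, one_smul] at h1
      have h3 : ∑ e, tv (a, b, c) e * f (Pi.single e 1) = z a b + z b c + z a c := by
        simp only [tv, add_mul, ite_mul, one_mul, zero_mul, Finset.sum_add_distrib,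
          Finset.sum_ite_eq', Finset.mem_univ, if_true]
        simp only [z]
        ring
      rw [h3] at h1
      exact h1

end H56NW
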