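import Pool.Agent.H56.NW.Dual
import Pool.Agent.H56.NW.Frac
import Pool.Agent.H56.FP.LP

/-! # The fractional Nash-Williams conjecture -/

open Finset

namespace H56NW

theorem lpd : LPD := fun A b c hp hd => H56FP.lp_duality A b c hp hd

section graph

variable {V : Type} [Fintype V] [DecidableEq V] (G : SimpleGraph V) [DecidableRel G.Adj]

/-- the 0/1 adjacency function -/
def ga (x y : V) : ℚ := if G.Adj x y then 1 else 0

lemma ga01 (x y : V) : ga G x y = 0 ∨ ga G x y = 1 := by
  unfold ga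
  by_cases h : G.Adj x y <;> simp [h]

lemma ga_symm (x y : V) : ga G x y = ga G y x := by
  unfold ga
  simp only [G.adj_comm x y]

lemma ga_one {x y : V} : ga G x y = 1 ↔ G.Adj x y := by
  unfold ga
  by_cases h : G.Adj x y <;> simp [h]

lemma ga_sum (x : V) : ∑ y, ga G x y = (G.degree x : ℚ) := by
  unfold ga
  rw [Finset.sum_boole]
  congr 1
  rw [← SimpleGraph.card_neighborFinset_eq_degree, SimpleGraph.neighborFinset_eq_filter]

/-- the weight of a three element set of vertices -/
def setWeight (w : V × V × V → ℚ) (T : Finset V) : ℚ :=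
  ∑ t : V × V × V, if ({t.1, t.2.1, t.2.2} : Finset V) = T then w t else 0

lemma clique_of_tg {t : V × V × V} (h : tg (ga G) t = 1) :
    G.Adj t.1 t.2.1 ∧ G.Adj t.2.1 t.2.2 ∧ G.Adj t.1 t.2.2 := by
  unfold tg at h
  rcases ga01 G t.1 t.2.1 with h1 | h1
  · simp [h1] at h
  rcases ga01 G t.2.1 t.2.2 with h2 | h2
  · simp [h2] at h
  rcases ga01 G t.1 t.2.2 with h3 | h3
  · simp [h3] at h
  exact ⟨(ga_one G).1 h1, (ga_one G).1 h2, (ga_one G).1 h3⟩

lemma tv_eq {t : V × V × V} (h1 : t.1 ≠ t.2.1) (h2 : t.2.1 ≠ t.2.2) (h3 : t.1 ≠ t.2.2)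
    {u v : V} (huv : u ≠ v) :
    tv t (u, v) = if u ∈ ({t.1, t.2.1, t.2.2} : Finset V) ∧
      v ∈ ({t.1, t.2.1, t.2.2} : Finset V) then 1 else 0 := by
  obtain ⟨a, b, c⟩ := t
  simp only at h1 h2 h3
  simp only [tv, Prod.mk.injEq, Finset.mem_insert, Finset.mem_singleton]
  by_cases ua : u = a
  · subst ua
    by_cases vb : v = b
    · subst vb
      simp [h1, h2, h3, h1.symm, h2.symm, h3.symm]
    · by_cases vc : v = c
      · subst vc
        simp [h1, h2, h3, h1.symm, h2.symm, h3.symm]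
      · simp [vb, vc, huv.symm, h1, h2, h3]
  · by_cases ub : u = b
    · subst ub
      by_cases va : v = a
      · subst va
        simp [h1, h2, h3, h1.symm, h2.symm, h3.symm]
      · by_cases vc : v = c
        · subst vc
          simp [h1, h2, h3, h1.symm, h2.symm, h3.symm]
        · simp [va, vc, huv.symm, h1.symm, h2, h3]
    · by_cases uc : u = c
      · subst uc
        by_cases va : v = a
        · subst va
          simp [h1, h2, h3, h1.symm, h2.symm, h3.symm]
        · by_cases vb : v = b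
          · subst vb
            simp [h1, h2, h3, h1.symm, h2.symm, h3.symm]
          · simp [va, vb, huv.symm, h3.symm, h2.symm]
      · simp [ua, ub, uc]

/-- The weighted form implies the form with weights on three element cliques. -/
theorem frac_decomp_of_weights (w : V × V × V → ℚ) (w0 : ∀ t, 0 ≤ w t)
    (wt : ∀ t, w t ≠ 0 → tg (ga G) t = 1)
    (w1 : ∀ e : V × V, ∑ t, w t * tv t e = ga G e.1 e.2) :
    ∃ f : Finset V → ℚ, (∀ T, 0 ≤ f T) ∧ (∀ T, f T ≠ 0 → G.IsNClique 3 T) ∧
      ∀ u v, G.Adj u v →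
        ∑ T ∈ Finset.univ.filter (fun T : Finset V => u ∈ T ∧ v ∈ T), f T = 1 := by
  refine ⟨setWeight w, ?_, ?_, ?_⟩
  · intro T
    unfold setWeight
    refine Finset.sum_nonneg fun t _ => ?_
    split_ifs
    · exact w0 t
    · exact le_rfl
  · intro T hT
    unfold setWeight at hT
    obtain ⟨t, _, ht⟩ := Finset.exists_ne_zero_of_sum_ne_zero hT
    by_cases h : ({t.1, t.2.1, t.2.2} : Finset V) = T
    · rw [if_pos h] at ht
      obtain ⟨h1, h2, h3⟩ := clique_of_tg G (wt t ht)
      rw [← h, SimpleGraph.is3Clique_triple_iff]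
      exact ⟨h1, h3, h2⟩
    · rw [if_neg h] at ht
      exact absurd rfl ht
  · intro u v huv
    have h1 := w1 (u, v)
    simp only [(ga_one G).2 huv] at h1
    rw [← h1]
    unfold setWeight
    rw [Finset.sum_comm]
    refine Finset.sum_congr rfl fun t _ => ?_
    rw [Finset.sum_ite_eq]
    by_cases hw : w t = 0
    · simp [hw]
    · obtain ⟨h1, h2, h3⟩ := clique_of_tg G (wt t hw)
      rw [tv_eq h1.ne h2.ne h3.ne huv.ne]
      simp only [Finset.mem_filter, Finset.mem_univ, true_and]
      by_cases h : u ∈ ({t.1, t.2.1, t.2.2} : Finset V) ∧ v ∈ ({t.1, t.2.1, t.2.2} : Finset V)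
      · rw [if_pos h, if_pos h, mul_one]
      · rw [if_neg h, if_neg h, mul_zero]

/-- The fractional Nash-Williams conjecture, from the existence of perfect fractional matchings. -/
theorem frac_nash_williams
    (hex : ∃ p : V → V → ℚ, (∀ x y, 0 ≤ p x y) ∧ (∀ x y, p x y = p y x) ∧
      (∀ x y, ga G x y = 0 → p x y = 0) ∧ (∀ x, ∑ y, p x y = 1))
    (hd : ∀ v, 3 * Fintype.card V ≤ 4 * G.degree v) :
    ∃ f : Finset V → ℚ, (∀ T, 0 ≤ f T) ∧ (∀ T, f T ≠ 0 → G.IsNClique 3 T) ∧
      ∀ u v, G.Adj u v →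
        ∑ T ∈ Finset.univ.filter (fun T : Finset V => u ∈ T ∧ v ∈ T), f T = 1 := by
  obtain ⟨w, w0, wt, w1⟩ := exists_weights (ga G) (ga01 G) (ga_symm G) (by
    intro z zs tri
    refine total_nonneg lpd (ga G) z (ga01 G) (ga_symm G) ?_ zs tri hex
    intro x
    rw [Finset.sum_sub_distrib, ga_sum]
    simp only [Finset.sum_const, Finset.card_univ, nsmul_eq_mul, mul_one]
    have h := hd x
    have h' : (3 : ℚ) * Fintype.card V ≤ 4 * G.degree x := by exact_mod_cast h
    linarith)
  exact frac_decomp_of_weights G w w0 wt w1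

end graph

end H56NW
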