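import Pool.Agent.H56.NW.Dual
import Pool.Agent.H6.Abund.Farkas

/-! # Perfect fractional matchings at minimum degree `n / 2` -/

open Finset

namespace H56NW

open Pool.Agent.H6.Abund.FarkasAux

variable {V : Type} [Fintype V] [DecidableEq V]

theorem exists_perfect' (g : V → V → ℚ) (g01 : ∀ x y, g x y = 0 ∨ g x y = 1)
    (gs : ∀ x y, g x y = g y x)
    (hd : ∀ x, (Fintype.card V : ℚ) ≤ 2 * ∑ y, g x y) :
    ∃ p : V → V → ℚ, (∀ x y, 0 ≤ p x y) ∧ (∀ x y, p x y = p y x) ∧
      (∀ x y, g x y = 0 → p x y = 0) ∧ (∀ x, ∑ y, p x y = 1) := by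
  classical
  have hg0 : ∀ x y, 0 ≤ g x y := by
    intro x y
    rcases g01 x y with h | h <;> rw [h] <;> norm_num
  have hg1 : ∀ x y, g x y ≤ 1 := by
    intro x y
    rcases g01 x y with h | h <;> rw [h] <;> norm_num
  rcases farkas_fintype (K := ℚ) (fun e : V × V => (fun v : V => inc g v e))
    (fun _ : V => (1 : ℚ)) with ⟨α, hα, hsum⟩ | ⟨f, hf, hfχ⟩
  · refine ⟨fun a b => g a b * (α (a, b) + α (b, a)), ?_, ?_, ?_, ?_⟩
    · intro a b
      exact mul_nonneg (hg0 _ _) (add_nonneg (hα _) (hα _))
    · intro a b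
      simp only
      rw [gs a b]; ring
    · intro a b h
      simp only
      rw [h, zero_mul]
    · intro v
      have h := congrFun hsum v
      simp only [Finset.sum_apply, Pi.smul_apply, smul_eq_mul] at h
      rw [← h]
      have h2 := sum_inc_left g α v
      calc ∑ y, g v y * (α (v, y) + α (y, v)) = ∑ y, (g v y * α (v, y) + g y v * α (y, v)) := by
            refine Finset.sum_congr rfl fun y _ => ?_
            rw [gs y v]; ring
        _ = ∑ e, inc g v e * α e := h2.symm
        _ = ∑ e, α e * inc g v e := Finset.sum_congr rfl fun e _ => mul_comm _ _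
  · exfalso
    have hdec : ∀ F : V → ℚ, f F = ∑ v, F v * f (Pi.single v 1) := by
      intro F
      have h1 : F = ∑ v, F v • (Pi.single v (1 : ℚ) : V → ℚ) := by
        funext v'
        simp only [Finset.sum_apply, Pi.smul_apply, smul_eq_mul, Pi.single_apply, mul_ite, mul_one,
          mul_zero, Finset.sum_ite_eq, Finset.mem_univ, if_true]
      conv_lhs => rw [h1]
      rw [map_sum]
      refine Finset.sum_congr rfl fun v _ => ?_
      rw [map_smul, smul_eq_mul]
    obtain ⟨s, hs⟩ : ∃ s : V → ℚ, ∀ v, s v = f (Pi.single v 1) := ⟨_, fun _ => rfl⟩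
    have hs1 : ∑ v, s v < 0 := by
      have h := hdec (fun _ => 1)
      simp only [one_mul] at h
      have h2 : ∑ v, s v = ∑ v, f (Pi.single v (1 : ℚ)) := Finset.sum_congr rfl fun v _ => hs v
      rw [h2, ← h]
      exact hfχ
    have hs2 : ∀ a b, g a b = 1 → 0 ≤ s a + s b := by
      intro a b hab
      have h := hf (a, b)
      rw [hdec] at h
      have h3 := sum_inc_right g s (a, b)
      have h4 : ∑ v, inc g v (a, b) * s v = ∑ v, inc g v (a, b) * f (Pi.single v 1) :=
        Finset.sum_congr rfl fun v _ => by rw [hs]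
      rw [← h4, h3] at h
      simpa [hab] using h
    have hne : (Finset.univ : Finset V).Nonempty := by
      rw [Finset.nonempty_iff_ne_empty]
      intro h
      rw [h] at hs1
      simp at hs1
    obtain ⟨x0, _, hx0⟩ := Finset.exists_min_image Finset.univ s hne
    have ht : s x0 < 0 := by
      by_contra hcon
      push Not at hcon
      have : 0 ≤ ∑ v, s v := Finset.sum_nonneg fun v _ => hcon.trans (hx0 v (Finset.mem_univ v))
      linarith
    have key : ∀ y, g x0 y * (-s x0) + (1 - g x0 y) * s x0 ≤ s y := by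
      intro y
      rcases g01 x0 y with h | h
      · rw [h]
        have := hx0 y (Finset.mem_univ y)
        linarith
      · rw [h]
        have := hs2 x0 y h
        linarith
    have hsum : ∑ y, (g x0 y * (-s x0) + (1 - g x0 y) * s x0) ≤ ∑ y, s y :=
      Finset.sum_le_sum fun y _ => key y
    have he : ∑ y, (g x0 y * (-s x0) + (1 - g x0 y) * s x0) =
        (2 * ∑ y, g x0 y - Fintype.card V) * (-s x0) := by
      have : ∀ y, g x0 y * (-s x0) + (1 - g x0 y) * s x0 = (2 * g x0 y - 1) * (-s x0) := by
        intro y; ring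
      simp only [this]
      rw [← Finset.sum_mul, Finset.sum_sub_distrib, ← Finset.mul_sum]
      simp
    rw [he] at hsum
    have := hd x0
    have h5 : 0 ≤ (2 * ∑ y, g x0 y - Fintype.card V) * (-s x0) :=
      mul_nonneg (by linarith) (by linarith)
    linarith

end H56NW
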