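import Pool.Agent.H56.NW.Dual
import Pool.Agent.H56.NW.Perfect
import Pool.Agent.H56.NW.Main

/-! # Fractional Nash-Williams for weighted graphs -/

open Finset

namespace H56NW

/-- the four point inequality for weighted edges -/
theorem four_point_w (p1 p2 q1 q2 z11 z12 z21 z22 g11 g12 g21 g22 : ℚ)
    (h11 : 0 ≤ g11 ∧ g11 ≤ 1) (h12 : 0 ≤ g12 ∧ g12 ≤ 1) (h21 : 0 ≤ g21 ∧ g21 ≤ 1)
    (h22 : 0 ≤ g22 ∧ g22 ≤ 1)
    (e11 : 0 < g11 → -p1 - q1 ≤ z11) (e12 : 0 < g12 → -p1 - q2 ≤ z12)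
    (e21 : 0 < g21 → -p2 - q1 ≤ z21) (e22 : 0 < g22 → -p2 - q2 ≤ z22)
    (a1 : 0 < g11 → 0 < g21 → p1 + p2 ≤ z11 + z21)
    (a2 : 0 < g12 → 0 < g22 → p1 + p2 ≤ z12 + z22)
    (b1 : 0 < g11 → 0 < g12 → q1 + q2 ≤ z11 + z12)
    (b2 : 0 < g21 → 0 < g22 → q1 + q2 ≤ z21 + z22) :
    (al p1 p2 + al q1 q2) * (1 - ((1 - g11) + (1 - g12) + (1 - g21) + (1 - g22)))
      ≤ g11 * z11 + g12 * z12 + g21 * z21 + g22 * z22 := by
  set A := al p1 p2 + al q1 q2 with hA
  -- the minimising corner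
  have key : ∀ g z : ℚ, 0 ≤ g → g ≤ 1 → ∃ g' : ℚ, (g' = 0 ∨ g' = 1) ∧ (g' = 1 → 0 < g) ∧
      g' * (z - A) ≤ g * (z - A) := by
    intro g z hg0 hg1
    by_cases hz : z - A < 0
    · rcases hg0.eq_or_lt with h | h
      · exact ⟨0, Or.inl rfl, fun h' => absurd h' (by norm_num), by rw [← h]⟩
      · exact ⟨1, Or.inr rfl, fun _ => h, by nlinarith⟩
    · push Not at hz
      exact ⟨0, Or.inl rfl, fun h' => absurd h' (by norm_num), by
        rw [zero_mul]; exact mul_nonneg hg0 hz⟩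
  obtain ⟨a11, b11, c11, d11⟩ := key g11 z11 h11.1 h11.2
  obtain ⟨a12, b12, c12, d12⟩ := key g12 z12 h12.1 h12.2
  obtain ⟨a21, b21, c21, d21⟩ := key g21 z21 h21.1 h21.2
  obtain ⟨a22, b22, c22, d22⟩ := key g22 z22 h22.1 h22.2
  have h := four_point p1 p2 q1 q2 z11 z12 z21 z22 a11 a12 a21 a22 b11 b12 b21 b22
    (fun h => e11 (c11 h)) (fun h => e12 (c12 h)) (fun h => e21 (c21 h)) (fun h => e22 (c22 h))
    (fun h h' => a1 (c11 h) (c21 h')) (fun h h' => a2 (c12 h) (c22 h'))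
    (fun h h' => b1 (c11 h) (c12 h')) (fun h h' => b2 (c21 h) (c22 h'))
  rw [← hA] at h
  linarith

variable {V : Type} [Fintype V]

/-- the four point inequality for two matching edges, weighted form -/
lemma Data.four_w {h g z p : V → V → ℚ} {r : V → ℚ} {k : ℚ} (D : Data h z p r k)
    (g0 : ∀ x y, 0 ≤ g x y) (gh : ∀ x y, g x y ≤ h x y)
    {y1 y2 c1 c2 : V} (hy : p y1 y2 ≠ 0) (hc : p c1 c2 ≠ 0) :
    (al (r y1) (r y2) + al (r c1) (r c2)) *
      (1 - ((1 - g y1 c1) + (1 - g y1 c2) + (1 - g y2 c1) + (1 - g y2 c2)))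
      ≤ g y1 c1 * z y1 c1 + g y1 c2 * z y1 c2 + g y2 c1 * z y2 c1 + g y2 c2 * z y2 c2 := by
  have hgy := D.pg _ _ hy
  have hgc := D.pg _ _ hc
  have hzy := D.pz _ _ hy
  have hzc := D.pz _ _ hc
  have hone : ∀ {x y}, 0 < g x y → h x y = 1 := by
    intro x y hxy
    rcases D.g01 x y with h0 | h0
    · have := gh x y
      rw [h0] at this
      exact absurd this (not_le.2 hxy)
    · exact h0
  have hle1 : ∀ x y, g x y ≤ 1 := by
    intro x y
    refine (gh x y).trans ?_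
    rcases D.g01 x y with h0 | h0 <;> rw [h0] <;> norm_num
  refine four_point_w (r y1) (r y2) (r c1) (r c2) _ _ _ _ _ _ _ _ ⟨g0 _ _, hle1 _ _⟩
    ⟨g0 _ _, hle1 _ _⟩ ⟨g0 _ _, hle1 _ _⟩ ⟨g0 _ _, hle1 _ _⟩
    (fun h => D.hr _ _ (hone h)) (fun h => D.hr _ _ (hone h)) (fun h => D.hr _ _ (hone h))
    (fun h => D.hr _ _ (hone h)) ?_ ?_ ?_ ?_
  · intro h1 h2
    have := D.tri y1 y2 c1 hgy (hone h2) (hone h1)
    linarith
  · intro h1 h2
    have := D.tri y1 y2 c2 hgy (hone h2) (hone h1)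
    linarith
  · intro h1 h2
    have := D.tri y1 c1 c2 (hone h1) hgc (hone h2)
    linarith
  · intro h1 h2
    have := D.tri y2 c1 c2 (hone h1) hgc (hone h2)
    linarith

/-- `Z ≥ 0`, weighted form. -/
theorem Data.total_w {h g z p : V → V → ℚ} {r : V → ℚ} {k : ℚ} (D : Data h z p r k)
    (g0 : ∀ x y, 0 ≤ g x y) (gh : ∀ x y, g x y ≤ h x y) (gs : ∀ x y, g x y = g y x)
    (deg : ∀ x, ∑ y, (1 - g x y) ≤ k) (hk : 4 * k ≤ Fintype.card V) :
    0 ≤ ∑ x, ∑ y, g x y * z x y := by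
  set m : V → V → V → V → ℚ := fun y1 y2 c1 c2 =>
    (1 - g y1 c1) + (1 - g y1 c2) + (1 - g y2 c1) + (1 - g y2 c2) with hm
  -- left side
  have hL : S4 p (fun y1 y2 c1 c2 => g y1 c1 * z y1 c1 + g y1 c2 * z y1 c2 + g y2 c1 * z y2 c1
      + g y2 c2 * z y2 c2) = 4 * ∑ x, ∑ y, g x y * z x y := by
    have e11 := S4_11 D (fun x y => g x y * z x y)
    have e12 : S4 p (fun y1 y2 c1 c2 => g y1 c2 * z y1 c2) = ∑ x, ∑ y, g x y * z x y := by
      rw [← e11]; exact S4_swap2 D (fun y1 _ c1 _ => g y1 c1 * z y1 c1)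
    have e21 : S4 p (fun y1 y2 c1 c2 => g y2 c1 * z y2 c1) = ∑ x, ∑ y, g x y * z x y := by
      rw [← e11]; exact S4_swap1 D (fun y1 _ c1 _ => g y1 c1 * z y1 c1)
    have e22 : S4 p (fun y1 y2 c1 c2 => g y2 c2 * z y2 c2) = ∑ x, ∑ y, g x y * z x y := by
      rw [← e12]; exact S4_swap1 D (fun y1 _ _ c2 => g y1 c2 * z y1 c2)
    rw [S4_add, S4_add, S4_add, e11, e12, e21, e22]
    ring
  -- right side
  have hR : 0 ≤ S4 p (fun y1 y2 c1 c2 =>
      (al (r y1) (r y2) + al (r c1) (r c2)) * (1 - m y1 y2 c1 c2)) := by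
    have e1 : S4 p (fun y1 y2 c1 c2 => (al (r y1) (r y2) + al (r c1) (r c2)) *
        (1 - m y1 y2 c1 c2)) = 2 * S4 p (fun y1 y2 c1 c2 => al (r y1) (r y2) *
        (1 - m y1 y2 c1 c2)) := by
      have e2 : S4 p (fun y1 y2 c1 c2 => al (r c1) (r c2) * (1 - m y1 y2 c1 c2))
          = S4 p (fun y1 y2 c1 c2 => al (r y1) (r y2) * (1 - m y1 y2 c1 c2)) := by
        rw [← S4_swap (p := p) (fun y1 y2 c1 c2 => al (r y1) (r y2) * (1 - m y1 y2 c1 c2))]
        congr 1
        funext y1 y2 c1 c2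
        simp only [hm]
        rw [gs c1 y1, gs c1 y2, gs c2 y1, gs c2 y2]
        ring
      have e3 : (fun y1 y2 c1 c2 => (al (r y1) (r y2) + al (r c1) (r c2)) *
          (1 - m y1 y2 c1 c2)) = fun y1 y2 c1 c2 => al (r y1) (r y2) * (1 - m y1 y2 c1 c2)
            + al (r c1) (r c2) * (1 - m y1 y2 c1 c2) := by
        funext y1 y2 c1 c2; ring
      rw [e3, S4_add, e2]; ring
    rw [e1]
    refine mul_nonneg (by norm_num) ?_
    unfold S4
    refine Finset.sum_nonneg fun y1 _ => Finset.sum_nonneg fun y2 _ => ?_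
    -- inner sums
    have i0 : ∑ c1, ∑ c2, p c1 c2 = Fintype.card V := by
      rw [Finset.sum_congr rfl fun c1 _ => D.p1 c1]
      simp
    have i1 : ∀ y, ∑ c1, ∑ c2, p c1 c2 * (1 - g y c1) = ∑ c, (1 - g y c) := by
      intro y
      refine Finset.sum_congr rfl fun c1 _ => ?_
      rw [← Finset.sum_mul, D.p1, one_mul]
    have i2 : ∀ y, ∑ c1, ∑ c2, p c1 c2 * (1 - g y c2) = ∑ c, (1 - g y c) := by
      intro y
      rw [Finset.sum_comm]
      refine Finset.sum_congr rfl fun c2 _ => ?_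
      rw [← Finset.sum_mul]
      have : ∑ c1, p c1 c2 = 1 := by
        rw [← D.p1 c2]
        exact Finset.sum_congr rfl fun c1 _ => D.ps _ _
      rw [this, one_mul]
    have e : ∑ c1, ∑ c2, p y1 y2 * p c1 c2 * (al (r y1) (r y2) * (1 - m y1 y2 c1 c2))
        = p y1 y2 * al (r y1) (r y2) * (Fintype.card V - 2 * ∑ c, (1 - g y1 c)
          - 2 * ∑ c, (1 - g y2 c)) := by
      have e' : ∀ c1 c2, p y1 y2 * p c1 c2 * (al (r y1) (r y2) * (1 - m y1 y2 c1 c2))
          = p y1 y2 * al (r y1) (r y2) * (p c1 c2 - p c1 c2 * (1 - g y1 c1)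
            - p c1 c2 * (1 - g y1 c2) - p c1 c2 * (1 - g y2 c1) - p c1 c2 * (1 - g y2 c2)) := by
        intro c1 c2
        simp only [hm]
        ring
      simp only [e', ← Finset.mul_sum]
      congr 1
      simp only [Finset.sum_sub_distrib]
      simp only [Finset.sum_sub_distrib] at i1 i2
      rw [i0]
      have := i1 y1
      have := i2 y1
      have := i1 y2
      have := i2 y2
      linarith
    rw [e]
    refine mul_nonneg (mul_nonneg (D.p0 _ _) (al_nonneg _ _)) ?_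
    have := deg y1
    have := deg y2
    linarith
  have hle := S4_le D (f := fun y1 y2 c1 c2 =>
      (al (r y1) (r y2) + al (r c1) (r c2)) * (1 - m y1 y2 c1 c2))
    (f' := fun y1 y2 c1 c2 => g y1 c1 * z y1 c1 + g y1 c2 * z y1 c2 + g y2 c1 * z y2 c1
      + g y2 c2 * z y2 c2) (fun a b c d h1 h2 => D.four_w g0 gh h1 h2)
  rw [hL] at hle
  linarith


section

open Pool.Agent.H6.Abund.FarkasAux

variable [DecidableEq V]

theorem exists_weights_gen (h g : V → V → ℚ) (g01 : ∀ x y, h x y = 0 ∨ h x y = 1)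
    (gs : ∀ x y, g x y = g y x)
    (tot : ∀ z : V → V → ℚ, (∀ x y, z x y = z y x) →
      (∀ x y c, h x y = 1 → h y c = 1 → h x c = 1 → 0 ≤ z x y + z y c + z x c) →
      0 ≤ ∑ x, ∑ y, g x y * z x y) :
    ∃ w : V × V × V → ℚ, (∀ t, 0 ≤ w t) ∧ (∀ t, w t ≠ 0 → tg h t = 1) ∧
      ∀ e : V × V, ∑ t, w t * tv t e = g e.1 e.2 := by
  classical
  rcases farkas_fintype (K := ℚ) (fun t : V × V × V => (tg h t) • (tv t : V × V → ℚ))
    (fun e : V × V => g e.1 e.2) with ⟨α, hα, hsum⟩ | ⟨f, hf, hfχ⟩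
  · have htg : ∀ t, tg h t = 0 ∨ tg h t = 1 := by
      intro t
      unfold tg
      rcases g01 t.1 t.2.1 with h1 | h1 <;> rcases g01 t.2.1 t.2.2 with h2 | h2 <;>
        rcases g01 t.1 t.2.2 with h3 | h3 <;> simp [h1, h2, h3]
    refine ⟨fun t => α t * tg h t, ?_, ?_, ?_⟩
    · intro t
      rcases htg t with h | h
      · simp [h]
      · simpa [h] using hα t
    · intro t ht
      rcases htg t with h | h
      · exact absurd (by simp [h]) ht
      · exact h
    · intro e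
      have h := congrFun hsum e
      simp only [Finset.sum_apply, Pi.smul_apply, smul_eq_mul] at h
      rw [← h]
      refine Finset.sum_congr rfl fun t _ => ?_
      ring
  · exfalso
    have hdec : ∀ F : V × V → ℚ, f F = ∑ e, F e * f (Pi.single e 1) := by
      intro F
      have h1 : F = ∑ e, F e • (Pi.single e (1 : ℚ) : V × V → ℚ) := by
        funext e'
        simp only [Finset.sum_apply, Pi.smul_apply, smul_eq_mul, Pi.single_apply, mul_ite, mul_one,
          mul_zero, Finset.sum_ite_eq, Finset.mem_univ, if_true]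
      conv_lhs => rw [h1]
      rw [map_sum]
      refine Finset.sum_congr rfl fun e _ => ?_
      rw [map_smul, smul_eq_mul]
    let z : V → V → ℚ := fun x y => f (Pi.single (x, y) 1) + f (Pi.single (y, x) 1)
    have hz := tot z (fun x y => add_comm _ _) ?_
    · have h1 : ∑ x, ∑ y, g x y * z x y = 2 * f (fun e : V × V => g e.1 e.2) := by
        rw [hdec, Fintype.sum_prod_type]
        simp only [z, mul_add, Finset.sum_add_distrib]
        have h2 : ∑ x, ∑ y, g x y * f (Pi.single (y, x) 1) =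
            ∑ x, ∑ y, g x y * f (Pi.single (x, y) 1) := by
          rw [Finset.sum_comm]
          refine Finset.sum_congr rfl fun x _ => Finset.sum_congr rfl fun y _ => ?_
          rw [gs y x]
        rw [h2]; ring
      linarith
    · intro a b c hab hbc hac
      have h1 := hf (a, b, c)
      rw [map_smul, hdec] at h1
      have h2 : tg h (a, b, c) = 1 := by simp [tg, hab, hbc, hac]
      rw [h2, one_smul] at h1
      have h3 : ∑ e, tv (a, b, c) e * f (Pi.single e 1) = z a b + z b c + z a c := by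
        simp only [tv, add_mul, ite_mul, one_mul, zero_mul, Finset.sum_add_distrib,
          Finset.sum_ite_eq', Finset.mem_univ, if_true]
        simp only [z]
        ring
      rw [h3] at h1
      exact h1


end

variable [DecidableEq V]

/-- the support of a weighted graph -/
def supp (g : V → V → ℚ) (x y : V) : ℚ := if g x y = 0 then 0 else 1

/-- **Fractional Nash-Williams for weighted graphs**: if `g` is symmetric with values in `[0, 1]`
and `∑ y, (1 - g x y) ≤ n / 4` for every `x` (the term `y = x` is counted), then `g` is a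
nonnegative combination of triangles of its support. -/
theorem frac_nash_williams_weighted (g : V → V → ℚ) (g0 : ∀ x y, 0 ≤ g x y)
    (g1 : ∀ x y, g x y ≤ 1) (gs : ∀ x y, g x y = g y x)
    (deg : ∀ x, 4 * ∑ y, (1 - g x y) ≤ Fintype.card V) :
    ∃ w : V × V × V → ℚ, (∀ t, 0 ≤ w t) ∧
      (∀ t, w t ≠ 0 → g t.1 t.2.1 ≠ 0 ∧ g t.2.1 t.2.2 ≠ 0 ∧ g t.1 t.2.2 ≠ 0) ∧
      ∀ e : V × V, ∑ t, w t * tv t e = g e.1 e.2 := by
  have h01 : ∀ x y, supp g x y = 0 ∨ supp g x y = 1 := by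
    intro x y
    unfold supp
    by_cases h : g x y = 0 <;> simp [h]
  have hsy : ∀ x y, supp g x y = supp g y x := by
    intro x y
    unfold supp
    rw [gs x y]
  have gh : ∀ x y, g x y ≤ supp g x y := by
    intro x y
    unfold supp
    by_cases h : g x y = 0
    · simp [h]
    · simpa [h] using g1 x y
  have hdeg : ∀ x, ∑ y, (1 - supp g x y) ≤ (Fintype.card V : ℚ) / 4 := by
    intro x
    have h1 : ∑ y, (1 - supp g x y) ≤ ∑ y, (1 - g x y) :=
      Finset.sum_le_sum fun y _ => by have := gh x y; linarith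
    have := deg x
    linarith
  have hex := exists_perfect' (supp g) h01 hsy (by
    intro x
    have h1 := hdeg x
    rw [Finset.sum_sub_distrib] at h1
    simp only [Finset.sum_const, Finset.card_univ, nsmul_eq_mul, mul_one] at h1
    have h0 : (0 : ℚ) ≤ Fintype.card V := Nat.cast_nonneg _
    linarith)
  have tot : ∀ z : V → V → ℚ, (∀ x y, z x y = z y x) →
      (∀ x y c, supp g x y = 1 → supp g y c = 1 → supp g x c = 1 →
        0 ≤ z x y + z y c + z x c) → 0 ≤ ∑ x, ∑ y, g x y * z x y := by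
    intro z zs tri
    obtain ⟨p, r, D⟩ := exists_data lpd (supp g) z ((Fintype.card V : ℚ) / 4) h01 hsy hdeg zs tri hex
    exact D.total_w g0 gh gs (fun x => by have := deg x; linarith) (by linarith)
  obtain ⟨w, w0, wt, w1⟩ := exists_weights_gen (supp g) g h01 gs tot
  refine ⟨w, w0, fun t ht => ?_, w1⟩
  have h := wt t ht
  unfold tg supp at h
  refine ⟨fun h' => ?_, fun h' => ?_, fun h' => ?_⟩
  · simp [h'] at h
  · simp [h'] at h
  · simp [h'] at h

end H56NW
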