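import Mathlib

/-! # The fractional triangle decomposition threshold: definitions -/

open Finset

namespace H56NW

/-- `G` is `K₃`-divisible: the number of edges is a multiple of three and all degrees are even. -/
def K3Divisible {V : Type} [Fintype V] [DecidableEq V] (G : SimpleGraph V)
    [DecidableRel G.Adj] : Prop :=
  3 ∣ G.edgeFinset.card ∧ ∀ v, Even (G.degree v)

/-- `w` is a fractional triangle decomposition of `G`: every triangle has a weight in `[0,1]`, and
for every edge `uv` the weights of the triangles that contain it add up to one. Triangles are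
three-element cliques, `G.cliqueFinset 3`. -/
def IsFracDecomp {V : Type} [Fintype V] [DecidableEq V] (G : SimpleGraph V)
    [DecidableRel G.Adj] (w : Finset V → ℝ) : Prop :=
  (∀ T ∈ G.cliqueFinset 3, 0 ≤ w T ∧ w T ≤ 1) ∧
    ∀ u v, G.Adj u v → ∑ T ∈ (G.cliqueFinset 3).filter (fun T => u ∈ T ∧ v ∈ T), w T = 1

/-- The set of all `δ` in `[0,1]` such that all sufficiently large `K₃`-divisible graphs with
minimum degree at least `δ n` have a fractional triangle decomposition. -/
def Good : Set ℝ :=
  {δ | 0 ≤ δ ∧ δ ≤ 1 ∧ ∃ n₀ : ℕ, ∀ (n : ℕ) (G : SimpleGraph (Fin n)) [DecidableRel G.Adj],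
    n₀ ≤ n → K3Divisible G → (∀ v, δ * (n : ℝ) ≤ (G.degree v : ℝ)) → ∃ w, IsFracDecomp G w}

/-- The fractional triangle decomposition threshold. -/
noncomputable def threshold : ℝ := sInf Good

end H56NW
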