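import Pool.Agent.H56.NW.Avg

/-! # Fractional Nash-Williams: the optimal perfect fractional matching -/

open Finset

namespace H56NW

/-- statement of linear programming duality with complementary slackness -/
def LPD : Prop := ∀ {I J : Type} [Fintype I] [Fintype J] (A : I → J → ℚ) (b : I → ℚ) (c : J → ℚ),
    (∃ x : J → ℚ, (∀ j, 0 ≤ x j) ∧ ∀ i, ∑ j, A i j * x j = b i) →
    (∃ y : I → ℚ, ∀ j, ∑ i, A i j * y i ≤ c j) →
    ∃ (x : J → ℚ) (y : I → ℚ), (∀ j, 0 ≤ x j) ∧ (∀ i, ∑ j, A i j * x j = b i) ∧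
      (∀ j, ∑ i, A i j * y i ≤ c j) ∧ ∀ j, x j * (c j - ∑ i, A i j * y i) = 0

variable {V : Type} [Fintype V] [DecidableEq V]

/-- the incidence matrix of ordered pairs -/
def inc (g : V → V → ℚ) (v : V) (e : V × V) : ℚ :=
  g e.1 e.2 * ((if e.1 = v then 1 else 0) + (if e.2 = v then 1 else 0))

lemma sum_inc_left (g : V → V → ℚ) (x : V × V → ℚ) (v : V) :
    ∑ e, inc g v e * x e = ∑ y, (g v y * x (v, y) + g y v * x (y, v)) := by
  rw [Fintype.sum_prod_type]
  have h : ∀ a b : V, inc g v (a, b) * x (a, b) =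
      (if a = v then g a b * x (a, b) else 0) + (if b = v then g a b * x (a, b) else 0) := by
    intro a b
    unfold inc
    by_cases h1 : a = v <;> by_cases h2 : b = v <;> simp [h1, h2] <;> ring
  simp only [h, Finset.sum_add_distrib]
  congr 1
  · rw [Finset.sum_eq_single v]
    · simp
    · intro a _ ha
      simp [ha]
    · simp
  · refine Finset.sum_congr rfl fun a _ => ?_
    rw [Finset.sum_ite_eq' Finset.univ v]
    simp

lemma sum_inc_right (g : V → V → ℚ) (y : V → ℚ) (e : V × V) :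
    ∑ v, inc g v e * y v = g e.1 e.2 * (y e.1 + y e.2) := by
  unfold inc
  have h : ∀ v : V, g e.1 e.2 * ((if e.1 = v then 1 else 0) + (if e.2 = v then 1 else 0)) * y v =
      (if e.1 = v then g e.1 e.2 * y v else 0) + (if e.2 = v then g e.1 e.2 * y v else 0) := by
    intro v
    by_cases h1 : e.1 = v <;> by_cases h2 : e.2 = v <;> simp [h1, h2] <;> ring
  simp only [h, Finset.sum_add_distrib, Finset.sum_ite_eq, Finset.mem_univ, if_true]
  ring

/-- Existence of the data from linear programming duality. -/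
theorem exists_data (hLP : LPD) (g z : V → V → ℚ) (k : ℚ)
    (g01 : ∀ x y, g x y = 0 ∨ g x y = 1) (gs : ∀ x y, g x y = g y x)
    (deg : ∀ x, ∑ y, (1 - g x y) ≤ k) (zs : ∀ x y, z x y = z y x)
    (tri : ∀ x y c, g x y = 1 → g y c = 1 → g x c = 1 → 0 ≤ z x y + z y c + z x c)
    (hex : ∃ p : V → V → ℚ, (∀ x y, 0 ≤ p x y) ∧ (∀ x y, p x y = p y x) ∧
      (∀ x y, g x y = 0 → p x y = 0) ∧ (∀ x, ∑ y, p x y = 1)) :
    ∃ (p : V → V → ℚ) (r : V → ℚ), Data g z p r k := by
  obtain ⟨q, q0, qs, qg, q1⟩ := hex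
  have hg0 : ∀ x y, 0 ≤ g x y := by
    intro x y
    rcases g01 x y with h | h <;> rw [h] <;> norm_num
  obtain ⟨x, y, x0, hx, hy, hxy⟩ := hLP (inc g) (fun _ => 1) (fun e => g e.1 e.2 * z e.1 e.2)
    ⟨fun e => q e.1 e.2 / 2, fun e => by have := q0 e.1 e.2; positivity, by
      intro v
      rw [sum_inc_left, ← q1 v]
      refine Finset.sum_congr rfl fun y _ => ?_
      simp only
      rw [gs y v, qs y v]
      rcases g01 v y with h | h
      · rw [qg v y h, h]; ring
      · rw [h]; ring⟩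
    ⟨fun _ => -∑ e : V × V, |z e.1 e.2|, by
      intro e
      rw [sum_inc_right]
      refine mul_le_mul_of_nonneg_left ?_ (hg0 _ _)
      have h1 : |z e.1 e.2| ≤ ∑ e : V × V, |z e.1 e.2| :=
        Finset.single_le_sum (f := fun e : V × V => |z e.1 e.2|) (fun i _ => abs_nonneg _)
          (Finset.mem_univ e)
      have h2 : -|z e.1 e.2| ≤ z e.1 e.2 := neg_abs_le _
      have h3 : 0 ≤ |z e.1 e.2| := abs_nonneg _
      linarith⟩
  have hsl : ∀ a b, g a b = 1 → x (a, b) ≠ 0 → z a b = y a + y b := by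
    intro a b hab hne
    have h1 := hxy (a, b)
    rw [sum_inc_right] at h1
    rcases mul_eq_zero.1 h1 with h2 | h2
    · exact absurd h2 hne
    · simp only [hab] at h2
      linarith
  refine ⟨fun a b => g a b * (x (a, b) + x (b, a)), fun a => -y a, ?_⟩
  refine ⟨g01, gs, deg, zs, tri, ?_, ?_, ?_, ?_, ?_, ?_⟩
  · intro a b
    exact mul_nonneg (hg0 _ _) (add_nonneg (x0 _) (x0 _))
  · intro a b
    rw [gs a b]; ring
  · intro v
    rw [← hx v, sum_inc_left]
    refine Finset.sum_congr rfl fun y _ => ?_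
    rw [gs y v]; ring
  · intro a b hab
    have h1 := hy (a, b)
    rw [sum_inc_right] at h1
    simp only [hab] at h1
    linarith
  · intro a b hne
    rcases g01 a b with h | h
    · exact absurd (by simp [h]) hne
    · exact h
  · intro a b hne
    have hab : g a b = 1 := by
      rcases g01 a b with h | h
      · exact absurd (by simp [h]) hne
      · exact h
    have hne2 : x (a, b) + x (b, a) ≠ 0 := by
      intro h
      exact hne (by simp [h])
    by_cases h1 : x (a, b) = 0
    · have h2 : x (b, a) ≠ 0 := by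
        intro h
        exact hne2 (by simp [h1, h])
      have := hsl b a (by rw [gs b a]; exact hab) h2
      rw [zs a b]
      linarith
    · have := hsl a b hab h1
      linarith

/-- the total weight is nonnegative -/
theorem total_nonneg (hLP : LPD) (g z : V → V → ℚ)
    (g01 : ∀ x y, g x y = 0 ∨ g x y = 1) (gs : ∀ x y, g x y = g y x)
    (deg : ∀ x, 4 * ∑ y, (1 - g x y) ≤ Fintype.card V) (zs : ∀ x y, z x y = z y x)
    (tri : ∀ x y c, g x y = 1 → g y c = 1 → g x c = 1 → 0 ≤ z x y + z y c + z x c)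
    (hex : ∃ p : V → V → ℚ, (∀ x y, 0 ≤ p x y) ∧ (∀ x y, p x y = p y x) ∧
      (∀ x y, g x y = 0 → p x y = 0) ∧ (∀ x, ∑ y, p x y = 1)) :
    0 ≤ ∑ x, ∑ y, g x y * z x y := by
  obtain ⟨p, r, D⟩ := exists_data hLP g z ((Fintype.card V : ℚ) / 4) g01 gs
    (fun x => by have := deg x; linarith) zs tri hex
  exact D.total (by linarith)

end H56NW
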