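import Pool.Agent.H6.Abund.Farkas

/-!
# Perfect fractional matchings at minimum degree `n / 2`
-/

open Finset

namespace H56NW

open Pool.Agent.H6.Abund.FarkasAux

/-- a function on the vertices whose sum over every edge is nonnegative has nonnegative total -/
private lemma sum_nonneg_of_edges {V : Type} [Fintype V] (g : V → V → ℚ)
    (g01 : ∀ x y, g x y = 0 ∨ g x y = 1) (hd : ∀ x, (Fintype.card V : ℚ) ≤ 2 * ∑ y, g x y)
    (s : V → ℚ) (hs : ∀ x y, g x y = 1 → 0 ≤ s x + s y) : 0 ≤ ∑ x, s x := by
  classical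
  by_contra hneg
  push Not at hneg
  have hne : (Finset.univ : Finset V).Nonempty := by
    rw [Finset.nonempty_iff_ne_empty]
    intro h
    rw [h, Finset.sum_empty] at hneg
    exact lt_irrefl _ hneg
  obtain ⟨x0, -, hx0⟩ := Finset.exists_min_image Finset.univ s hne
  have hs0 : s x0 < 0 := by
    by_contra h0
    push Not at h0
    exact absurd (Finset.sum_nonneg fun y _ => h0.trans (hx0 y (Finset.mem_univ y)))
      (not_le.2 hneg)
  have h1 : ∀ y, g x0 y * (-s x0) + (1 - g x0 y) * s x0 ≤ s y := by
    intro y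
    rcases g01 x0 y with h | h
    · rw [h]
      have := hx0 y (Finset.mem_univ y)
      linarith
    · rw [h]
      have := hs x0 y h
      linarith
  have h2 : ∑ y, (g x0 y * (-s x0) + (1 - g x0 y) * s x0) ≤ ∑ y, s y :=
    Finset.sum_le_sum fun y _ => h1 y
  have h3 : ∑ y, (g x0 y * (-s x0) + (1 - g x0 y) * s x0)
      = (-s x0) * (2 * ∑ y, g x0 y - Fintype.card V) := by
    have : ∀ y, g x0 y * (-s x0) + (1 - g x0 y) * s x0 = (-s x0) * (2 * g x0 y) + s x0 := by
      intro y; ring
    simp only [this]
    rw [Finset.sum_add_distrib, ← Finset.mul_sum, ← Finset.mul_sum, Finset.sum_const,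
      Finset.card_univ, nsmul_eq_mul]
    ring
  have h4 : 0 ≤ (-s x0) * (2 * ∑ y, g x0 y - Fintype.card V) :=
    mul_nonneg (by linarith) (by linarith [hd x0])
  linarith

theorem exists_perfect {V : Type} [Fintype V] [DecidableEq V] (g : V → V → ℚ)
    (g01 : ∀ x y, g x y = 0 ∨ g x y = 1) (gs : ∀ x y, g x y = g y x)
    (hd : ∀ x, (Fintype.card V : ℚ) ≤ 2 * ∑ y, g x y) :
    ∃ p : V → V → ℚ, (∀ x y, 0 ≤ p x y) ∧ (∀ x y, p x y = p y x) ∧
      (∀ x y, g x y = 0 → p x y = 0) ∧ (∀ x, ∑ y, p x y = 1) := by
  classical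
  rcases farkas_fintype (K := ℚ) (σ := V × V)
    (fun e => g e.1 e.2 • ((Pi.single e.1 1 : V → ℚ) + Pi.single e.2 1)) (fun _ => (1 : ℚ)) with
    ⟨α, hα, h⟩ | ⟨f, hf, hfχ⟩
  · refine ⟨fun x y => g x y * (α (x, y) + α (y, x)), ?_, ?_, ?_, ?_⟩
    · intro x y
      have hg : 0 ≤ g x y := by rcases g01 x y with h | h <;> rw [h] <;> norm_num
      exact mul_nonneg hg (add_nonneg (hα _) (hα _))
    · intro x y
      show g x y * (α (x, y) + α (y, x)) = g y x * (α (y, x) + α (x, y))
      rw [gs x y, add_comm]
    · intro x y hxy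
      show g x y * (α (x, y) + α (y, x)) = 0
      rw [hxy, zero_mul]
    · intro x
      have hx := congrFun h x
      rw [Finset.sum_apply] at hx
      have e1 : ∀ e : V × V, (α e • (g e.1 e.2 •
          ((Pi.single e.1 1 : V → ℚ) + Pi.single e.2 1)) : V → ℚ) x
          = (if e.1 = x then α e * g e.1 e.2 else 0) + (if e.2 = x then α e * g e.1 e.2 else 0) := by
        intro e
        rw [Pi.smul_apply, Pi.smul_apply, Pi.add_apply, Pi.single_apply, Pi.single_apply,
          smul_eq_mul, smul_eq_mul]
        simp only [eq_comm (a := x)]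
        split_ifs <;> ring
      simp only [e1] at hx
      rw [Finset.sum_add_distrib, Fintype.sum_prod_type, Fintype.sum_prod_type_right] at hx
      have e2 : ∀ a, ∑ b, (if a = x then α (a, b) * g a b else 0)
          = if a = x then ∑ b, α (a, b) * g a b else 0 := by
        intro a
        split_ifs <;> simp
      have e3 : ∀ b, ∑ a, (if b = x then α (a, b) * g a b else 0)
          = if b = x then ∑ a, α (a, b) * g a b else 0 := by
        intro b
        split_ifs <;> simp
      simp only [e2, e3] at hx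
      rw [Finset.sum_ite_eq', Finset.sum_ite_eq', if_pos (Finset.mem_univ _),
        if_pos (Finset.mem_univ _)] at hx
      show ∑ y, g x y * (α (x, y) + α (y, x)) = 1
      rw [← hx, ← Finset.sum_add_distrib]
      refine Finset.sum_congr rfl fun y _ => ?_
      rw [gs y x]
      ring
  · exfalso
    have hs : ∀ x y, g x y = 1 → 0 ≤ f (Pi.single x 1) + f (Pi.single y 1) := by
      intro x y hxy
      have := hf (x, y)
      simp only [hxy, one_smul, map_add] at this
      exact this
    have h1 := sum_nonneg_of_edges g g01 hd (fun x => f (Pi.single x 1)) hs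
    have h2 : f (fun _ => (1 : ℚ)) = ∑ x, f (Pi.single x 1) := by
      rw [← map_sum]
      congr 1
      funext x
      rw [Finset.sum_apply]
      simp [Pi.single_apply]
    rw [h2] at hfχ
    exact absurd h1 (not_le.2 hfχ)

end H56NW
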