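import Mathlib
import Pool.Agent.H56.NW.Defs

/-!
# Sharpness of the constant `3 / 4` in the fractional Nash-Williams theorem

The vertices are `(a, b, x)` with `a, b` Boolean and `x` in `ZMod N`; `(a, b, x)` and
`(a', b', x')` are adjacent if `a ≠ a'`, or if `b ≠ b'` and `x + x'` is neither `0` nor `1`.
-/

open Finset

namespace H56NW

/-- The vertex set of the example. -/
abbrev LV (N : ℕ) : Type := Bool × Bool × ZMod N

/-- The graph of the example. -/
def lowG (N : ℕ) : SimpleGraph (LV N) where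
  Adj p q := p.1 ≠ q.1 ∨ (p.2.1 ≠ q.2.1 ∧ p.2.2 + q.2.2 ≠ 0 ∧ p.2.2 + q.2.2 ≠ 1)
  symm := ⟨by
    rintro p q (h | ⟨h1, h2, h3⟩)
    · exact Or.inl (Ne.symm h)
    · exact Or.inr ⟨Ne.symm h1, by rwa [add_comm], by rwa [add_comm]⟩⟩
  loopless := ⟨by
    rintro p (h | ⟨h1, -, -⟩)
    · exact h rfl
    · exact h1 rfl⟩

instance (N : ℕ) [NeZero N] : DecidableRel (lowG N).Adj := fun p q => by
  unfold lowG
  infer_instance

/-- The dual weight: `2` on pairs with the same first coordinate, `-1` on the others. -/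
def lowZ {N : ℕ} (p q : LV N) : ℤ := if p.1 = q.1 then 2 else -1

theorem sum_zmod_ite (N : ℕ) [NeZero N] (hN : 2 ≤ N) (x : ZMod N) :
    ∑ y : ZMod N, (if x + y ≠ 0 ∧ x + y ≠ 1 then (1 : ℤ) else 0) = N - 2 := by
  have : Fact (1 < N) := ⟨by omega⟩
  have h1 : ∑ y : ZMod N, (if x + y ≠ 0 ∧ x + y ≠ 1 then (1 : ℤ) else 0)
      = ∑ y : ZMod N, (1 - (if y = -x then (1 : ℤ) else 0) - (if y = 1 - x then (1 : ℤ) else 0)) := by
    refine Finset.sum_congr rfl fun y _ => ?_
    have e1 : x + y = 0 ↔ y = -x := by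
      constructor
      · intro h
        linear_combination h
      · intro h
        rw [h]
        ring
    have e2 : x + y = 1 ↔ y = 1 - x := by
      constructor
      · intro h
        linear_combination h
      · intro h
        rw [h]
        ring
    by_cases c1 : y = -x
    · have c2 : ¬ y = 1 - x := by
        intro c2
        have : (0 : ZMod N) = 1 := by
          have := c1.symm.trans c2
          linear_combination this
        exact zero_ne_one this
      rw [if_neg (fun h => h.1 (e1.2 c1)), if_pos c1, if_neg c2]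
      norm_num
    · by_cases c2 : y = 1 - x
      · rw [if_neg (fun h => h.2 (e2.2 c2)), if_neg c1, if_pos c2]
        norm_num
      · rw [if_pos ⟨fun h => c1 (e1.1 h), fun h => c2 (e2.1 h)⟩, if_neg c1, if_neg c2]
        norm_num
  rw [h1, Finset.sum_sub_distrib, Finset.sum_sub_distrib]
  simp only [Finset.sum_const, Finset.card_univ, ZMod.card, Finset.sum_ite_eq', Finset.mem_univ,
    if_true, nsmul_eq_mul, mul_one]
  ring

theorem sum_deg (N : ℕ) [NeZero N] (hN : 2 ≤ N) (p : LV N) :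
    ∑ q : LV N, (if (lowG N).Adj p q then (1 : ℤ) else 0) = 3 * N - 2 := by
  obtain ⟨a, b, x⟩ := p
  have h := sum_zmod_ite N hN x
  rw [Fintype.sum_prod_type]
  simp only [Fintype.sum_prod_type, Fintype.sum_bool]
  cases a <;> cases b <;>
    simp [lowG] at h ⊢ <;>
    linarith

theorem sum_z (N : ℕ) [NeZero N] (hN : 2 ≤ N) (p : LV N) :
    ∑ q : LV N, (if (lowG N).Adj p q then lowZ p q else 0) = -4 := by
  obtain ⟨a, b, x⟩ := p
  have h := sum_zmod_ite N hN x
  have h2 : ∑ y : ZMod N, (if x + y ≠ 0 ∧ x + y ≠ 1 then (2 : ℤ) else 0) = 2 * (N - 2) := by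
    rw [← h, Finset.mul_sum]
    refine Finset.sum_congr rfl fun y _ => ?_
    split_ifs <;> norm_num
  rw [Fintype.sum_prod_type]
  simp only [Fintype.sum_prod_type, Fintype.sum_bool]
  cases a <;> cases b <;>
    simp [lowG, lowZ] at h2 ⊢ <;>
    linarith

/-- Any three pairwise adjacent vertices have total dual weight zero. -/
theorem lowZ_triangle {N : ℕ} {p q r : LV N} (h1 : (lowG N).Adj p q) (h2 : (lowG N).Adj p r)
    (h3 : (lowG N).Adj q r) : lowZ p q + lowZ p r + lowZ q r = 0 := by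
  obtain ⟨a, b, x⟩ := p
  obtain ⟨a', b', x'⟩ := q
  obtain ⟨a'', b'', x''⟩ := r
  cases a <;> cases a' <;> cases a'' <;> simp [lowZ, lowG] at h1 h2 h3 ⊢
  all_goals
    cases b <;> cases b' <;> cases b'' <;> simp at h1 h2 h3

theorem lowZ_symm {N : ℕ} (p q : LV N) : lowZ p q = lowZ q p := by
  unfold lowZ
  simp only [eq_comm]

variable {n N : ℕ}

/-- The graph on `Fin n` obtained from an enumeration of the vertices. -/
def finG (e : Fin n ≃ LV N) : SimpleGraph (Fin n) := (lowG N).comap e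

instance [NeZero N] (e : Fin n ≃ LV N) : DecidableRel (finG e).Adj := fun p q => by
  unfold finG
  rw [SimpleGraph.comap_adj]
  infer_instance

theorem finG_degree [NeZero N] (hN : 2 ≤ N) (e : Fin n ≃ LV N) (v : Fin n) :
    ((finG e).degree v : ℤ) = 3 * N - 2 := by
  rw [← sum_deg N hN (e v), ← Equiv.sum_comp e, ← SimpleGraph.card_neighborFinset_eq_degree,
    SimpleGraph.neighborFinset_eq_filter, Finset.card_filter]
  push_cast
  rfl

/-- The example has no triangle decomposition with real weights, even if negative weights are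
allowed. -/
theorem finG_no_signed [NeZero N] (hN : 2 ≤ N) (hn : 0 < n) (e : Fin n ≃ LV N)
    (w : Finset (Fin n) → ℝ) (hw : ∀ u v, (finG e).Adj u v →
      ∑ T ∈ ((finG e).cliqueFinset 3).filter (fun T => u ∈ T ∧ v ∈ T), w T = 1) : False := by
  have key : ∑ u : Fin n, ∑ v : Fin n,
      (if (finG e).Adj u v then ((lowZ (e u) (e v) : ℤ) : ℝ) else 0) *
        (∑ T ∈ ((finG e).cliqueFinset 3).filter (fun T => u ∈ T ∧ v ∈ T), w T) = 0 := by
    have h1 : ∀ u v : Fin n, (if (finG e).Adj u v then ((lowZ (e u) (e v) : ℤ) : ℝ) else 0) *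
        (∑ T ∈ ((finG e).cliqueFinset 3).filter (fun T => u ∈ T ∧ v ∈ T), w T) =
        ∑ T ∈ (finG e).cliqueFinset 3, w T * (if u ∈ T then (if v ∈ T then
          (if (finG e).Adj u v then ((lowZ (e u) (e v) : ℤ) : ℝ) else 0) else 0) else 0) := by
      intro u v
      rw [Finset.sum_filter, Finset.mul_sum]
      refine Finset.sum_congr rfl fun T _ => ?_
      by_cases hu : u ∈ T <;> by_cases hv : v ∈ T <;> simp [hu, hv, mul_comm]
    simp only [h1]
    have h2 : ∀ u : Fin n, ∑ v : Fin n, ∑ T ∈ (finG e).cliqueFinset 3, w T * (if u ∈ T then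
        (if v ∈ T then (if (finG e).Adj u v then ((lowZ (e u) (e v) : ℤ) : ℝ) else 0) else 0)
          else 0) = ∑ T ∈ (finG e).cliqueFinset 3, w T * ∑ v : Fin n, (if u ∈ T then
        (if v ∈ T then (if (finG e).Adj u v then ((lowZ (e u) (e v) : ℤ) : ℝ) else 0) else 0)
          else 0) := by
      intro u
      rw [Finset.sum_comm]
      simp only [Finset.mul_sum]
    simp only [h2]
    rw [Finset.sum_comm]
    refine Finset.sum_eq_zero fun T hT => ?_
    rw [← Finset.mul_sum]
    have h3 : ∑ u : Fin n, ∑ v : Fin n, (if u ∈ T then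
        (if v ∈ T then (if (finG e).Adj u v then ((lowZ (e u) (e v) : ℤ) : ℝ) else 0) else 0)
          else 0) = ∑ u ∈ T, ∑ v ∈ T,
            (if (finG e).Adj u v then ((lowZ (e u) (e v) : ℤ) : ℝ) else 0) := by
      rw [← Finset.sum_filter_add_sum_filter_not Finset.univ (fun u => u ∈ T)]
      rw [Finset.sum_eq_zero (s := Finset.univ.filter (fun u => ¬ u ∈ T)), add_zero]
      · rw [Finset.filter_mem_eq_inter, Finset.univ_inter]
        refine Finset.sum_congr rfl fun u hu => ?_
        simp only [hu, if_true]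
        rw [← Finset.sum_filter, Finset.filter_mem_eq_inter, Finset.univ_inter]
      · intro u hu
        rw [Finset.mem_filter] at hu
        simp [hu.2]
    rw [h3]
    rw [SimpleGraph.mem_cliqueFinset_iff, SimpleGraph.is3Clique_iff] at hT
    obtain ⟨a, b, c, hab, hac, hbc, rfl⟩ := hT
    have nab := hab.ne
    have nac := hac.ne
    have nbc := hbc.ne
    have t := lowZ_triangle (N := N) hab hac hbc
    have s3 : ∀ f : Fin n → ℝ, ∑ x ∈ ({a, b, c} : Finset (Fin n)), f x = f a + (f b + f c) := by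
      intro f
      rw [Finset.sum_insert (by simp [nab, nac]), Finset.sum_insert (by simp [nbc]),
        Finset.sum_singleton]
    rw [s3, s3, s3, s3]
    simp only [SimpleGraph.irrefl, if_false, hab, hab.symm, hac, hac.symm, hbc, hbc.symm, if_true]
    rw [lowZ_symm (e b) (e a), lowZ_symm (e c) (e a), lowZ_symm (e c) (e b)]
    have t' : ((lowZ (e a) (e b) : ℤ) : ℝ) + ((lowZ (e a) (e c) : ℤ) : ℝ)
      + ((lowZ (e b) (e c) : ℤ) : ℝ) = 0 := by exact_mod_cast t
    linear_combination (2 * w {a, b, c}) * t'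
  have h4 : ∀ u v : Fin n, (if (finG e).Adj u v then ((lowZ (e u) (e v) : ℤ) : ℝ) else 0) *
        (∑ T ∈ ((finG e).cliqueFinset 3).filter (fun T => u ∈ T ∧ v ∈ T), w T) =
        (((if (finG e).Adj u v then lowZ (e u) (e v) else 0 : ℤ)) : ℝ) := by
    intro u v
    by_cases h : (finG e).Adj u v
    · rw [hw u v h, mul_one]
      simp [h]
    · simp [h]
  simp only [h4] at key
  have h5 : ∀ u : Fin n, ∑ v : Fin n, (if (finG e).Adj u v then lowZ (e u) (e v) else 0 : ℤ)
      = -4 := by
    intro u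
    rw [← sum_z N hN (e u), ← Equiv.sum_comp e]
    rfl
  have h6 : (∑ u : Fin n, ∑ v : Fin n,
      (if (finG e).Adj u v then lowZ (e u) (e v) else 0 : ℤ)) = 0 := by
    exact_mod_cast key
  rw [Finset.sum_congr rfl (fun u _ => h5 u)] at h6
  simp at h6
  omega

/-- For every `δ < 3 / 4` there are arbitrarily large `K₃`-divisible graphs of minimum degree at
least `δ n` without a triangle decomposition with real weights (of any sign). -/
theorem lower_aux : ∀ (δ : ℝ), δ < 3 / 4 → ∀ n₀ : ℕ, ∃ (n : ℕ) (G : SimpleGraph (Fin n))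
    (_ : DecidableRel G.Adj), n₀ ≤ n ∧ K3Divisible G ∧
      (∀ v, δ * (n : ℝ) ≤ (G.degree v : ℝ)) ∧ ∀ w : Finset (Fin n) → ℝ,
        ¬ ∀ u v, G.Adj u v →
          ∑ T ∈ (G.cliqueFinset 3).filter (fun T => u ∈ T ∧ v ∈ T), w T = 1 := by
  intro δ hδ n₀
  obtain ⟨m, hm⟩ := exists_nat_ge (1 / (3 / 4 - δ))
  have hpos : (0 : ℝ) < 3 / 4 - δ := by linarith
  set M : ℕ := max (max m n₀) 1 with hM
  have hM1 : 1 ≤ M := le_max_right _ _
  have hMm : m ≤ M := le_trans (le_max_left _ _) (le_max_left _ _)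
  have hMn : n₀ ≤ M := le_trans (le_max_right _ _) (le_max_left _ _)
  have : NeZero (6 * M) := ⟨by omega⟩
  have hcard : Fintype.card (LV (6 * M)) = 24 * M := by
    simp only [Fintype.card_prod, Fintype.card_bool, ZMod.card]
    ring
  have e : Fin (24 * M) ≃ LV (6 * M) := (Fintype.equivFinOfCardEq hcard).symm
  refine ⟨24 * M, finG e, inferInstance, by omega, ⟨?_, ?_⟩, ?_, ?_⟩
  · have h := (finG e).sum_degrees_eq_twice_card_edges
    have h2 : ∀ v, (finG e).degree v = 18 * M - 2 := by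
      intro v
      have := finG_degree (by omega) e v
      push_cast at this
      omega
    simp only [h2, Finset.sum_const, Finset.card_univ, Fintype.card_fin, smul_eq_mul] at h
    have h3 : (finG e).edgeFinset.card = 3 * (4 * M * (18 * M - 2)) := by
      have h' : 2 * (3 * (4 * M * (18 * M - 2))) = 2 * (finG e).edgeFinset.card := by
        rw [← h]
        ring
      omega
    rw [h3]
    exact dvd_mul_right _ _
  · intro v
    have := finG_degree (by omega) e v
    push_cast at this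
    refine ⟨9 * M - 1, ?_⟩
    omega
  · intro v
    have h := finG_degree (by omega) e v
    have h' : ((finG e).degree v : ℝ) = 3 * (6 * M : ℝ) - 2 := by exact_mod_cast h
    rw [h']
    push_cast
    have h1 : 1 ≤ (3 / 4 - δ) * M := by
      have : 1 / (3 / 4 - δ) ≤ M := hm.trans (by exact_mod_cast hMm)
      rw [div_le_iff₀ hpos] at this
      linarith
    nlinarith
  · exact fun w hw => finG_no_signed (by omega) (by omega) e w hw

/-- For every `δ < 3 / 4` there are arbitrarily large `K₃`-divisible graphs of minimum degree at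
least `δ n` without a fractional triangle decomposition. -/
theorem lower : ∀ (δ : ℝ), δ < 3 / 4 → ∀ n₀ : ℕ, ∃ (n : ℕ) (G : SimpleGraph (Fin n))
    (_ : DecidableRel G.Adj), n₀ ≤ n ∧ K3Divisible G ∧
      (∀ v, δ * (n : ℝ) ≤ (G.degree v : ℝ)) ∧ ¬ ∃ w, IsFracDecomp G w := by
  intro δ hδ n₀
  obtain ⟨n, G, inst, h1, h2, h3, h4⟩ := lower_aux δ hδ n₀
  exact ⟨n, G, inst, h1, h2, h3, fun ⟨w, _, hw⟩ => h4 w hw⟩

/-- The same in the form used in the hand-in: rational weights (of any sign) on the sets of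
vertices, zero outside the triangles. -/
theorem lower' : ∀ (δ : ℝ), δ < 3 / 4 → ∀ n₀ : ℕ, ∃ (n : ℕ) (G : SimpleGraph (Fin n))
    (_ : DecidableRel G.Adj), n₀ ≤ n ∧ 3 ∣ G.edgeFinset.card ∧ (∀ v, Even (G.degree v)) ∧
      (∀ v, δ * (n : ℝ) ≤ (G.degree v : ℝ)) ∧ ¬ ∃ w : Finset (Fin n) → ℚ,
        (∀ t, w t ≠ 0 → G.IsNClique 3 t) ∧ ∀ u v, G.Adj u v →
          ∑ t ∈ Finset.univ.filter (fun t : Finset (Fin n) => u ∈ t ∧ v ∈ t), w t = 1 := by
  intro δ hδ n₀
  obtain ⟨n, G, inst, h1, h2, h3, h4⟩ := lower_aux δ hδ n₀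
  refine ⟨n, G, inst, h1, h2.1, h2.2, h3, ?_⟩
  rintro ⟨w, hs, hw⟩
  refine h4 (fun t => (w t : ℝ)) fun u v huv => ?_
  have h5 : ∑ T ∈ (G.cliqueFinset 3).filter (fun T => u ∈ T ∧ v ∈ T), w T
      = ∑ t ∈ Finset.univ.filter (fun t : Finset (Fin n) => u ∈ t ∧ v ∈ t), w t := by
    refine Finset.sum_subset (fun t ht => ?_) (fun t ht hn => ?_)
    · rw [Finset.mem_filter] at ht ⊢
      exact ⟨Finset.mem_univ _, ht.2⟩
    · by_contra hne
      refine hn ?_
      rw [Finset.mem_filter] at ht ⊢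
      exact ⟨SimpleGraph.mem_cliqueFinset_iff.2 (hs t hne), ht.2⟩
  rw [hw u v huv] at h5
  exact_mod_cast h5

end H56NW
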